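import Pool.Agent.N352.JB.Def

/-!
# Project JB (helper352), KUM (helper232): the Kummer class of a cocycle with values in `J[2]`
-/

set_option autoImplicit false
set_option linter.all false

open Polynomial IsDedekindDomain
open scoped Classical

namespace Pool.Agent.N232.JB

open Pool.Agent.Y160.SE Pool.Agent.N352.JB
open Pool.Agent.TH115.GD (incl rs ak)

theorem kum (h1 : S_LAG) (h2 : S_NRM) : S_KUM := by
  intro K Ω _ _ _ _ _ f hg hirr c hlc hmul htor
  have H : Hyps := hyps
  obtain ⟨a, ha⟩ := exists_rt hg Ω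
  have hirr' : Irreducible (f.map (algebraMap K K)) := by
    rw [Algebra.algebraMap_self, Polynomial.map_id]; exact hirr
  -- the Kummer generator
  let N := IntermediateField.adjoin K {a}
  let θ : N := ⟨a, IntermediateField.mem_adjoin_simple_self K a⟩
  have htop : IntermediateField.adjoin K {θ} = ⊤ := by
    have e1 : (IntermediateField.adjoin K {θ}).map N.val = N := by
      rw [IntermediateField.adjoin_map, Set.image_singleton]
      rfl
    rw [eq_top_iff]
    intro y _
    have hy : (y : Ω) ∈ (IntermediateField.adjoin K {θ}).map N.val := by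
      rw [e1]
      exact y.2
    obtain ⟨w, hw, hwy⟩ := (IntermediateField.mem_map _).1 hy
    have e2 : w = y := Subtype.ext hwy
    rw [← e2]
    exact hw
  obtain ⟨t, z, ht0, -, ht⟩ := kummerN H hg (N := N) (θ := θ) ha rfl htop hlc hmul htor
  -- transport
  have htr : ∀ β : Ω, ∃ ρ : Ω ≃ₐ[K] Ω, Rt f β → ρ a = β := by
    intro β
    by_cases hβ : Rt f β
    · obtain ⟨ρ, hρ⟩ := trans_rt (F := K) hg hirr' ha hβ
      exact ⟨ρ, fun _ => hρ⟩
    · exact ⟨1, fun h => absurd h hβ⟩
  choose ρ hρ using htr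
  have hmap : ∀ (σ : Ω ≃ₐ[K] Ω) (e : Ω), Rt f e → Rt f (σ e) := fun σ e he => he.map (ak σ)
  have hsq : ∀ (σ : Ω ≃ₐ[K] Ω) (e : Ω), Rt f e → chi hg e (c σ) ^ 2 = 1 := fun σ e he =>
    chi_pow H hg (htor σ) he
  have hcmul : ∀ (σ τ : Ω ≃ₐ[K] Ω) (e : Ω), Rt f e →
      chi hg (σ e) (c (σ * τ)) = chi hg (σ e) (c σ) * chi hg e (c τ) := by
    intro σ τ e he
    rw [hmul, chi_add H hg (htor _) ((htor _).map _) (hmap σ e he)]
    have h6 := chi_map H hg (htor τ) he (ak σ)
    rw [chi_fix' H hg (htor _) he] at h6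
    have h7 : (ak σ) e = σ e := rfl
    rw [h7] at h6
    rw [h6]
  let b : Ω → Ω := fun e => chi hg e (c (ρ e)) * ρ e t
  have hb0 : ∀ e, Rt f e → b e ≠ 0 := fun e he =>
    mul_ne_zero (chi_ne H hg (htor _) he) ((_root_.map_ne_zero _).2 ht0)
  have hgal : ∀ (σ : Ω ≃ₐ[K] Ω) (e : Ω), Rt f e → σ (b e) = chi hg (σ e) (c σ) * b (σ e) := by
    intro σ e he
    have hσe := hmap σ e he
    set τ : Ω ≃ₐ[K] Ω := (ρ (σ e))⁻¹ * (σ * ρ e) with hτ
    have hτa : τ a = a := by
      rw [hτ, AlgEquiv.mul_apply, AlgEquiv.mul_apply, hρ e he]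
      have h3 : ρ (σ e) a = σ e := hρ _ hσe
      have h4 : (ρ (σ e))⁻¹ (ρ (σ e) a) = a := by
        rw [← AlgEquiv.mul_apply, inv_mul_cancel]; rfl
      rw [h3] at h4
      exact h4
    have hmulτ : ρ (σ e) * τ = σ * ρ e := by rw [hτ]; group
    have e1 : chi hg (σ e) (c (σ * ρ e)) = chi hg (σ e) (c σ) * chi hg e (c (ρ e)) :=
      hcmul σ (ρ e) e he
    have e2 : chi hg (σ e) (c (ρ (σ e) * τ)) = chi hg (σ e) (c (ρ (σ e))) * chi hg a (c τ) := by
      have := hcmul (ρ (σ e)) τ a ha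
      rwa [hρ _ hσe] at this
    rw [hmulτ, e1] at e2
    have e3 : σ (ρ e t) = chi hg a (c τ) * ρ (σ e) t := by
      have h5 : σ (ρ e t) = ρ (σ e) (τ t) := by
        rw [← AlgEquiv.mul_apply, ← AlgEquiv.mul_apply, hmulτ]
      rw [h5, ht τ hτa, map_mul]
      have h6 := chi_fix' H hg (htor τ) ha (ak (ρ (σ e)))
      have h7 : (ρ (σ e)) (chi hg a (c τ)) = chi hg a (c τ) := h6
      rw [h7]
    have e4 : σ (chi hg e (c (ρ e))) = chi hg e (c (ρ e)) := chi_fix' H hg (htor _) he (ak σ)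
    show σ (chi hg e (c (ρ e)) * ρ e t) = chi hg (σ e) (c σ) * (chi hg (σ e) (c (ρ (σ e))) *
      ρ (σ e) t)
    rw [map_mul, e3, e4]
    have q1 := hsq σ (σ e) hσe
    have q2 := hsq τ a ha
    have e5 : chi hg e (c (ρ e)) * chi hg a (c τ) = chi hg (σ e) (c σ) *
        chi hg (σ e) (c (ρ (σ e))) := by
      linear_combination (chi hg (σ e) (c σ) * chi hg a (c τ)) * e2 -
        (chi hg e (c (ρ e)) * chi hg a (c τ)) * q1 +
        (chi hg (σ e) (c σ) * chi hg (σ e) (c (ρ (σ e)))) * q2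
    linear_combination (ρ (σ e) t) * e5
  -- descent
  obtain ⟨s, hs⟩ := h1 K Ω f hg.sep (fun e => b e ^ 2) (by
    intro τ e he
    show τ (b e ^ 2) = b (τ e) ^ 2
    rw [map_pow, hgal τ e he, mul_pow, hsq τ _ (hmap τ e he), one_mul])
  refine ⟨s, b, ⟨fun e he => ⟨hb0 e he, (hs e he).symm⟩, hgal⟩, ?_⟩
  -- the norm
  have hrt : ∀ e ∈ (f.map (algebraMap K Ω)).roots, Rt f e := fun e he =>
    rt_of ((mem_roots (hg.up Ω).monic.ne_zero).1 he)
  set B : Ω := ((f.map (algebraMap K Ω)).roots.map b).prod with hB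
  have hBfix : ∀ σ : Ω ≃ₐ[K] Ω, σ B = B := by
    intro σ
    have e1 : σ B = ((f.map (algebraMap K Ω)).roots.map fun e => σ (b e)).prod := by
      rw [hB, map_multiset_prod, Multiset.map_map]
      rfl
    have e2 : ((f.map (algebraMap K Ω)).roots.map fun e => σ (b e)) =
        (((f.map (algebraMap K Ω)).roots.map σ).map fun e => chi hg e (c σ) * b e) := by
      rw [Multiset.map_map]
      exact Multiset.map_congr rfl fun e he => hgal σ e (hrt e he)
    have e3 : (f.map (algebraMap K Ω)).roots.map σ = (f.map (algebraMap K Ω)).roots := by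
      have h3 := roots_map_of_injective_of_card_eq_natDegree (p := f.map (algebraMap K Ω))
        (f := (σ : Ω →+* Ω)) (RingHom.injective _) (splits_up hg (Ω := Ω)).natDegree_eq_card_roots.symm
      have h4 : (f.map (algebraMap K Ω)).map (σ : Ω →+* Ω) = f.map (algebraMap K Ω) := by
        rw [Polynomial.map_map]
        congr 1
        ext x
        exact σ.commutes x
      rw [h4] at h3
      exact h3
    rw [e1, e2, e3, Multiset.prod_map_mul, chi_prod H hg (htor σ), one_mul]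
  obtain ⟨y, hy⟩ := (InfiniteGalois.mem_range_algebraMap_iff_fixed (k := K) (K := Ω) B).2 hBfix
  refine ⟨y, ?_⟩
  apply (algebraMap K Ω).injective
  rw [h2 K Ω f s hg.monic (splits_up hg), map_mul, hy]
  have e4 : ((f.map (algebraMap K Ω)).roots.map fun e => aeval e s) =
      (f.map (algebraMap K Ω)).roots.map fun e => b e * b e :=
    Multiset.map_congr rfl fun e he => by rw [hs e (hrt e he), sq]
  rw [e4, Multiset.prod_map_mul]

end Pool.Agent.N232.JB
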